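import Mathlib
import Pool.Agent.R989.SvdK

open MeasureTheory Matrix Module
open scoped ENNReal

namespace Pool.Agent.Results.MP_569b71_an.SketchSvdLowerBound

open Pool.Agent.R989.GauH Pool.Agent.R989.Svd

/-- The assertion of Q1 for the field `K` (with constant `α = α_K`): for every law `μ` of a
full-rank random embedding `Ω` (an `n × l` matrix), all `d`, `q ≥ 1`, `l ≤ r ≤ min d n` with
`q < l - α` and every measurable algorithm, the supremum over all `A` of rank `r` of the ratio of the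
expected squared Frobenius error of the output and the squared error of the best approximation of rank
at most `q` is at least `(r - l)/(r - q) * (1 + q/(l - q - α))`. -/
def LowerBound (K : Type) [RCLike K] (α : ℝ) : Prop :=
  ∀ (n l : ℕ) (μ : Measure (Matrix (Fin n) (Fin l) K)), IsProbabilityMeasure μ →
  (∀ᵐ Ω ∂μ, Ω.rank = min n l) →
  ∀ d q r : ℕ, 0 < q → l ≤ r → (q : ℝ) < (l : ℝ) - α → r ≤ min d n →
  ∀ ALG : Matrix (Fin n) (Fin l) K → Matrix (Fin d) (Fin l) K → Matrix (Fin n) (Fin l) K →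
      Matrix (Fin d) (Fin n) K,
  (Measurable fun p : Matrix (Fin n) (Fin l) K × Matrix (Fin d) (Fin l) K × Matrix (Fin n) (Fin l) K =>
      ALG p.1 p.2.1 p.2.2) →
  ENNReal.ofReal (((r : ℝ) - l) / ((r : ℝ) - q) * (1 + (q : ℝ) / ((l : ℝ) - q - α))) ≤
    ⨆ (A : Matrix (Fin d) (Fin n) K) (_ : A.rank = r),
      (∫⁻ Ω, ENNReal.ofReal (frobSq (A - ALG Ω (A * Ω) (Aᴴ * A * Ω))) ∂μ) /
        ENNReal.ofReal (bestErr q A)

theorem general (K : Type) [RCLike K] (α : ℝ) (hα0 : 0 ≤ α)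
    (hα : (finrank ℝ K : ℝ) * (1 + α) = 2) : LowerBound K α := by
  intro n l μ hμp hμ d q r hq hlr hql hr ALG hALG
  have := hμp
  have hrd : r ≤ d := hr.trans (min_le_left _ _)
  have hrn : r ≤ n := hr.trans (min_le_right _ _)
  set s : ℝ≥0∞ := ⨆ (A : Matrix (Fin d) (Fin n) K) (_ : A.rank = r),
      (∫⁻ Ω, ENNReal.ofReal (frobSq (A - ALG Ω (A * Ω) (Aᴴ * A * Ω))) ∂μ) /
        ENNReal.ofReal (bestErr q A) with hs
  have hql' : q < l := by
    have : (q : ℝ) < l := by linarith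
    exact_mod_cast this
  have hs2 : ∀ A : Matrix (Fin d) (Fin n) K, A.rank = r →
      ∫⁻ Ω, ENNReal.ofReal (frobSq (A - ALG Ω (A * Ω) (Aᴴ * A * Ω))) ∂μ ≤
        s * ENNReal.ofReal (bestErr q A) := by
    intro A hA
    have hpos : 0 < bestErr q A := bestErr_pos (by rw [hA]; omega)
    rw [← ENNReal.div_le_iff_le_mul (Or.inl (by simpa using hpos)) (Or.inl ENNReal.ofReal_ne_top)]
    exact le_iSup_of_le A (le_iSup_of_le hA le_rfl)
  have hβ : 0 < finrank ℝ K := Module.finrank_pos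
  have hβ' : (0 : ℝ) < (finrank ℝ K : ℝ) := by exact_mod_cast hβ
  have hm : 2 < finrank ℝ K * (l - q + 1) := by
    have : (2 : ℝ) < ((finrank ℝ K * (l - q + 1) : ℕ) : ℝ) := by
      push_cast [Nat.cast_sub hql'.le]
      rw [← hα]
      apply mul_lt_mul_of_pos_left _ hβ'
      linarith
    exact_mod_cast this
  have hμ' : ∀ᵐ Ω ∂μ, Ω.rank = l := by
    filter_upwards [hμ] with Ω hΩ
    rw [hΩ]
    exact min_eq_right (hlr.trans hrn)
  have hmain := svd_main (by omega) hql'.le hlr hrd hrn hm μ hμ' ALG hALG s hs2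
  by_cases hst : s = ⊤
  · rw [hst]; exact le_top
  obtain ⟨s', hs'⟩ : ∃ s' : ℝ, 0 ≤ s' ∧ s = ENNReal.ofReal s' :=
    ⟨s.toReal, ENNReal.toReal_nonneg, (ENNReal.ofReal_toReal hst).symm⟩
  rw [hs'.2] at hmain ⊢
  have hlq : (0 : ℝ) < (l : ℝ) - q - α := by linarith
  have hden : (((finrank ℝ K * (l - q + 1) : ℕ) : ℝ) - 2) = (finrank ℝ K : ℝ) * ((l : ℝ) - q - α) := by
    push_cast [Nat.cast_sub hql'.le]
    linear_combination hα
  rw [hden] at hmain
  have hrl : (0 : ℝ) ≤ (r : ℝ) - l := by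
    have : (l : ℝ) ≤ r := by exact_mod_cast hlr
    linarith
  have hrq : (0 : ℝ) < (r : ℝ) - q := by
    have : (q : ℝ) < r := by exact_mod_cast (by omega : q < r)
    linarith
  have e1 : ((finrank ℝ K * (r - l) : ℕ) : ℝ≥0∞) = ENNReal.ofReal ((finrank ℝ K : ℝ) * ((r : ℝ) - l)) := by
    rw [← ENNReal.ofReal_natCast]
    push_cast [Nat.cast_sub hlr]
    rfl
  have e2 : ((r - l : ℕ) : ℝ≥0∞) = ENNReal.ofReal ((r : ℝ) - l) := by
    rw [← ENNReal.ofReal_natCast]
    push_cast [Nat.cast_sub hlr]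
    rfl
  have e4 : (q : ℝ≥0∞) = ENNReal.ofReal (q : ℝ) := by simp
  rw [e1, e2, e4, ← ENNReal.ofReal_mul (by positivity), ← ENNReal.ofReal_mul (by positivity),
    ← ENNReal.ofReal_add hrl (by positivity), ← ENNReal.ofReal_mul hs'.1,
    ENNReal.ofReal_le_ofReal_iff (by have := hs'.1; positivity)] at hmain
  apply ENNReal.ofReal_le_ofReal
  have h6 : ((r : ℝ) - q) * (((r : ℝ) - l) / ((r : ℝ) - q) * (1 + (q : ℝ) / ((l : ℝ) - q - α))) ≤
      ((r : ℝ) - q) * s' := by
    calc ((r : ℝ) - q) * (((r : ℝ) - l) / ((r : ℝ) - q) * (1 + (q : ℝ) / ((l : ℝ) - q - α)))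
        = ((r : ℝ) - l) + (q : ℝ) * ((finrank ℝ K : ℝ) * ((r : ℝ) - l) *
          (1 / ((finrank ℝ K : ℝ) * ((l : ℝ) - q - α)))) := by
          field_simp
      _ ≤ s' * ((r : ℝ) - q) := hmain
      _ = _ := by ring
  exact le_of_mul_le_mul_left h6 hrq

theorem result : LowerBound ℝ 1 ∧ LowerBound ℂ 0 := by
  constructor
  · apply general ℝ 1 (by norm_num)
    simp
    norm_num
  · apply general ℂ 0 (by norm_num)
    simp [Complex.finrank_real_complex]

end Pool.Agent.Results.MP_569b71_an.SketchSvdLowerBound
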